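import Mathlib
import Pool.Agent.H888R2.GN7

/-!
# Gromov's question on planar geodesic nets

The number of balanced vertices of a geodesic net in the Euclidean plane is bounded by a function of
the number of its unbalanced vertices and of its total imbalance.
-/

set_option autoImplicit false

open Finset
open scoped Classical

namespace Pool.Agent.Results.MP_b48dd4_gt.GromovBound

/-- The Euclidean plane. -/
abbrev Plane := EuclideanSpace ℝ (Fin 2)

/-- A finite set of points of the plane and a simple graph on it; the edge between the adjacent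
vertices `v`, `w` is the closed straight segment `[v, w]`. -/
structure PlaneGraph where
  /-- the vertices -/
  V : Finset Plane
  /-- the graph -/
  G : SimpleGraph V

namespace PlaneGraph

variable (N : PlaneGraph)

/-- The neighbours of a vertex. -/
noncomputable def nbrs (v : N.V) : Finset N.V := univ.filter fun w => N.G.Adj v w

/-- The degree of a vertex. -/
noncomputable def deg (v : N.V) : ℕ := (N.nbrs v).card

/-- `Imb v`, the sum of the unit vectors at `v` pointing along the edges incident to `v`. -/
noncomputable def Imb (v : N.V) : Plane :=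
  ∑ w ∈ N.nbrs v, (1 / ‖(w : Plane) - (v : Plane)‖) • ((w : Plane) - (v : Plane))

/-- The number of balanced vertices. -/
noncomputable def numBalanced : ℕ := (univ.filter fun v => N.Imb v = 0).card

/-- The number of unbalanced vertices. -/
noncomputable def numUnbalanced : ℕ := (univ.filter fun v => N.Imb v ≠ 0).card

/-- The total imbalance: the sum of `imb v = |Imb v|` over the unbalanced vertices. -/
noncomputable def totalImbalance : ℝ := ∑ v ∈ univ.filter (fun v => N.Imb v ≠ 0), ‖N.Imb v‖

/-- `N` is a geodesic net: two distinct edges meet at most in a common endpoint, every vertex has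
degree at least `1` and every balanced vertex has degree at least `3`. -/
structure IsGeodesicNet : Prop where
  embedded : ∀ a b c d : N.V, N.G.Adj a b → N.G.Adj c d → s(a, b) ≠ s(c, d) →
    segment ℝ (a : Plane) b ∩ segment ℝ (c : Plane) d ⊆
      ({(a : Plane), (b : Plane)} : Set Plane) ∩ {(c : Plane), (d : Plane)}
  deg_pos : ∀ v : N.V, 1 ≤ N.deg v
  deg_balanced : ∀ v : N.V, N.Imb v = 0 → 3 ≤ N.deg v

theorem norm_eq (x : Plane) : ‖x‖ = Real.sqrt (x 0 ^ 2 + x 1 ^ 2) := by
  rw [EuclideanSpace.norm_eq, Fin.sum_univ_two, Real.norm_eq_abs, Real.norm_eq_abs, sq_abs, sq_abs]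

/-- the net in coordinates -/
noncomputable def toPNet (hN : N.IsGeodesicNet) : Pool.Agent.H888R2.GN.PNet N.V where
  X v := (v : Plane) 0
  Y v := (v : Plane) 1
  Adj := N.G.Adj
  symm a b h := h.symm
  ne a b h := by
    by_contra hcon
    push Not at hcon
    apply h.ne
    apply Subtype.ext
    ext i
    fin_cases i
    · exact hcon.1
    · exact hcon.2
  emb v b b' h1 h2 hne t ht hX hY := by
    have hvec : (b : Plane) - (v : Plane) = t • ((b' : Plane) - (v : Plane)) := by
      ext i
      fin_cases i
      · simpa using hX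
      · simpa using hY
    have hs : s(v, b) ≠ s(v, b') := by
      intro h
      rcases Sym2.eq_iff.1 h with ⟨-, h⟩ | ⟨h, h'⟩
      · exact hne h
      · exact h1.ne (h'.symm)
    have hsub := hN.embedded v b v b' h1 h2 hs
    rcases le_total t 1 with h | h
    · have hb : (b : Plane) ∈ segment ℝ (v : Plane) b' := by
        rw [segment_eq_image']
        refine ⟨t, ⟨ht.le, h⟩, ?_⟩
        simp only
        rw [← hvec]
        simp
      have := (hsub ⟨right_mem_segment ℝ _ _, hb⟩).2
      rcases this with h | h
      · exact h1.ne (Subtype.ext h.symm)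
      · exact hne (Subtype.ext h)
    · have hb : (b' : Plane) ∈ segment ℝ (v : Plane) b := by
        rw [segment_eq_image']
        refine ⟨t⁻¹, ⟨by positivity, inv_le_one_of_one_le₀ h⟩, ?_⟩
        simp only
        rw [hvec, smul_smul, inv_mul_cancel₀ ht.ne', one_smul]
        simp
      have := (hsub ⟨hb, right_mem_segment ℝ _ _⟩).1
      rcases this with h | h
      · exact h2.ne (Subtype.ext h.symm)
      · exact hne (Subtype.ext h.symm)

theorem L_eq (hN : N.IsGeodesicNet) (v w : N.V) : (N.toPNet hN).L v w = ‖(w : Plane) - (v : Plane)‖ := by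
  rw [norm_eq]
  rfl

theorem nb_eq (hN : N.IsGeodesicNet) (v : N.V) : (N.toPNet hN).nb v = N.nbrs v := rfl

theorem IX_eq (hN : N.IsGeodesicNet) (v : N.V) : (N.toPNet hN).IX v = N.Imb v 0 := by
  unfold Pool.Agent.H888R2.GN.PNet.IX Imb
  rw [nb_eq, WithLp.ofLp_sum, Finset.sum_apply]
  apply sum_congr rfl
  intro w _
  rw [L_eq]
  simp only [PiLp.smul_apply, PiLp.sub_apply, smul_eq_mul, toPNet]
  ring

theorem IY_eq (hN : N.IsGeodesicNet) (v : N.V) : (N.toPNet hN).IY v = N.Imb v 1 := by
  unfold Pool.Agent.H888R2.GN.PNet.IY Imb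
  rw [nb_eq, WithLp.ofLp_sum, Finset.sum_apply]
  apply sum_congr rfl
  intro w _
  rw [L_eq]
  simp only [PiLp.smul_apply, PiLp.sub_apply, smul_eq_mul, toPNet]
  ring

theorem bal_iff (hN : N.IsGeodesicNet) (v : N.V) : (N.toPNet hN).Bal v ↔ N.Imb v = 0 := by
  unfold Pool.Agent.H888R2.GN.PNet.Bal
  rw [IX_eq, IY_eq]
  constructor
  · rintro ⟨h1, h2⟩
    ext i
    fin_cases i
    · simpa using h1
    · simpa using h2
  · intro h
    rw [h]
    simp

theorem imb_eq (hN : N.IsGeodesicNet) (v : N.V) : (N.toPNet hN).imb v = ‖N.Imb v‖ := by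
  unfold Pool.Agent.H888R2.GN.PNet.imb
  rw [IX_eq, IY_eq, norm_eq]

end PlaneGraph

/-- **Gromov's question has a positive answer.** There is a function `F : ℕ × [0,∞) → ℕ` such that
every geodesic net in the plane with `n` unbalanced vertices and total imbalance at most `I` has at
most `F(n, I)` balanced vertices. -/
theorem result : ∃ F : ℕ → NNReal → ℕ, ∀ N : PlaneGraph, N.IsGeodesicNet →
    ∀ (n : ℕ) (I : NNReal), N.numUnbalanced = n → N.totalImbalance ≤ I → N.numBalanced ≤ F n I := by
  choose T hT using fun (n : ℕ) (I : NNReal) => Pool.Agent.H888R2.GN.PNet.planar_bound n (I : ℝ)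
  refine ⟨T, ?_⟩
  intro N hN n I hn hI
  have h := hT n I N.V (N.toPNet hN) ?_ ?_ ?_
  · refine le_trans (le_of_eq ?_) h
    unfold PlaneGraph.numBalanced
    congr 1
    apply filter_congr
    intro v _
    exact (N.bal_iff hN v).symm
  · intro v hv
    exact hN.deg_balanced v ((N.bal_iff hN v).1 hv)
  · refine le_trans (le_of_eq ?_) hn.le
    unfold PlaneGraph.numUnbalanced
    congr 1
    apply filter_congr
    intro v _
    exact not_congr (N.bal_iff hN v)
  · refine le_trans (le_of_eq ?_) hI
    unfold PlaneGraph.totalImbalance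
    rw [sum_filter]
    apply sum_congr rfl
    intro v _
    rw [N.imb_eq hN]
    split_ifs with h
    · rfl
    · rw [not_not] at h
      rw [h, norm_zero]

end Pool.Agent.Results.MP_b48dd4_gt.GromovBound
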